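import Pool.Agent.H60.RGd

set_option autoImplicit false

namespace Pool.Agent.Results.MP_fef6c2_gt.Sphere

open Set Topology

/-- `X ⊆ ℂ = ℝ²` is injectively rigid: every continuous injection of `X` into the plane is a
homeomorphism onto its image (a topological embedding). -/
def InjRigid (X : Set ℂ) : Prop :=
  ∀ f : X → ℂ, Continuous f → Function.Injective f → IsEmbedding f

theorem result :
    ∀ X : Set ℂ, LocallyCompactSpace X → IsConnected (((↑) '' X : Set (OnePoint ℂ))ᶜ) →
      ¬ IsCompact X → ¬ IsOpen X → ¬ InjRigid X := by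
  intro X h1 h2 h3 h4 hr
  obtain ⟨f, hf1, hf2, hf3⟩ := H60.RG.sphere_not_rigid h1 h2.isPreconnected h3 h4
  exact hf3 (hr f hf1 hf2)

end Pool.Agent.Results.MP_fef6c2_gt.Sphere
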