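import Pool.Agent.H60.RGd

set_option autoImplicit false

namespace Pool.Agent.Results.MP_fef6c2_gt.Yes

open Set Topology

/-- `X ⊆ ℂ = ℝ²` is injectively rigid: every continuous injection of `X` into the plane is a
homeomorphism onto its image (a topological embedding). -/
def InjRigid (X : Set ℂ) : Prop :=
  ∀ f : X → ℂ, Continuous f → Function.Injective f → IsEmbedding f

theorem result :
    ∃ X : Set ℂ, X = {z | 1 ≤ ‖z‖} ∧ LocallyCompactSpace X ∧ IsConnected Xᶜ ∧ ¬ IsCompact X ∧
      ¬ IsOpen X ∧ InjRigid X := by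
  obtain ⟨h1, h2, h3, h4, h5, h6, h7⟩ := H60.RG.example_props
  exact ⟨_, rfl, h1, h2, h3, h4, H60.RG.rigid_of h5 h6 h7⟩

end Pool.Agent.Results.MP_fef6c2_gt.Yes
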